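import Mathlib
import Pool.Agent.U830.MA.Stm

set_option autoImplicit false

/-! Project MA, package ALG (helper208). -/

namespace Pool.Agent.U208.MA.ALG

open Finset

/-- three generators of an additive group of order `8` -/
theorem gens {K : Type} [Field K] [Fintype K] [CharP K 2] (A : AddSubgroup K)
    (hA : Nat.card A = 8) : ∃ b0 b1 b2 : K, b0 ∈ A ∧ b1 ∈ A ∧ b2 ∈ A ∧
      b0 ≠ 0 ∧ b1 ≠ 0 ∧ b1 ≠ b0 ∧ b2 ≠ 0 ∧ b2 ≠ b0 ∧ b2 ≠ b1 ∧ b2 ≠ b0 + b1 ∧
      ∀ a ∈ A, a = 0 ∨ a = b0 ∨ a = b1 ∨ a = b0 + b1 ∨ a = b2 ∨ a = b0 + b2 ∨ a = b1 + b2 ∨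
        a = b0 + b1 + b2 := by
  classical
  have hs : ∀ x : K, x + x = 0 := fun x => CharTwo.add_self_eq_zero x
  obtain ⟨S, hS⟩ : ∃ S : Finset K, ∀ a, a ∈ S ↔ a ∈ A :=
    ⟨Finset.univ.filter fun a => a ∈ A, fun a => by simp⟩
  have hc : S.card = 8 := by
    rw [← hA]
    have h1 : (A : Set K) = (S : Set K) := by
      ext a
      simp [hS]
    have h2 : Nat.card (A : Set K) = S.card := by
      rw [h1]
      simp
    exact h2.symm
  have key : ∀ T : Finset K, T.card < 8 → ∃ b ∈ A, b ∉ T := by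
    intro T hT
    have : (S \ T).Nonempty := by
      rw [← Finset.card_pos]
      have := Finset.le_card_sdiff T S
      omega
    obtain ⟨b, hb⟩ := this
    rw [Finset.mem_sdiff, hS] at hb
    exact ⟨b, hb.1, hb.2⟩
  obtain ⟨b0, hb0, h0⟩ := key {0} (by simp)
  obtain ⟨b1, hb1, h1⟩ := key {0, b0} (lt_of_le_of_lt Finset.card_le_two (by norm_num))
  obtain ⟨b2, hb2, h2⟩ := key {0, b0, b1, b0 + b1}
    (lt_of_le_of_lt Finset.card_le_four (by norm_num))
  simp only [Finset.mem_singleton, Finset.mem_insert, not_or] at h0 h1 h2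
  refine ⟨b0, b1, b2, hb0, hb1, hb2, h0, h1.1, h1.2, h2.1, h2.2.1, h2.2.2.1, h2.2.2.2, ?_⟩
  have hneg : ∀ x y : K, x + y = 0 → x = y := fun x y h => by
    have h3 := hs y
    linear_combination h - h3
  obtain ⟨T, hT⟩ : ∃ T : Finset K, T = {0, b0, b1, b0 + b1, b2, b0 + b2, b1 + b2, b0 + b1 + b2} :=
    ⟨_, rfl⟩
  have hTS : T ⊆ S := by
    intro a ha
    rw [hT] at ha
    simp only [Finset.mem_insert, Finset.mem_singleton] at ha
    rw [hS]
    rcases ha with rfl | rfl | rfl | rfl | rfl | rfl | rfl | rfl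
    · exact A.zero_mem
    · exact hb0
    · exact hb1
    · exact A.add_mem hb0 hb1
    · exact hb2
    · exact A.add_mem hb0 hb2
    · exact A.add_mem hb1 hb2
    · exact A.add_mem (A.add_mem hb0 hb1) hb2
  have n01 : b0 + b1 ≠ 0 := fun h => h1.2 (hneg _ _ h).symm
  have n02 : b0 + b2 ≠ 0 := fun h => h2.2.1 (hneg _ _ h).symm
  have n12 : b1 + b2 ≠ 0 := fun h => h2.2.2.1 (hneg _ _ h).symm
  have n012 : b0 + b1 + b2 ≠ 0 := fun h => h2.2.2.2 (hneg _ _ h).symm
  have hTc : T.card = 8 := by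
    rw [hT]
    have ne' : ∀ x y w : K, w ≠ 0 → x + y = w → x ≠ y := fun x y w h h' e => h (by
      rw [← h', e]
      exact hs y)
    rw [Finset.card_insert_of_notMem, Finset.card_insert_of_notMem, Finset.card_insert_of_notMem,
      Finset.card_insert_of_notMem, Finset.card_insert_of_notMem, Finset.card_insert_of_notMem,
      Finset.card_insert_of_notMem, Finset.card_singleton]
    · rw [Finset.mem_singleton]
      exact ne' _ _ b0 h0 (by linear_combination hs b1 + hs b2)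
    · simp only [Finset.mem_insert, Finset.mem_singleton, not_or]
      exact ⟨ne' _ _ (b0 + b1) n01 (by linear_combination hs b2),
        ne' _ _ b1 h1.1 (by linear_combination hs b0 + hs b2)⟩
    · simp only [Finset.mem_insert, Finset.mem_singleton, not_or]
      exact ⟨ne' _ _ b0 h0 (by linear_combination hs b2),
        ne' _ _ b1 h1.1 (by linear_combination hs b2),
        ne' _ _ (b0 + b1) n01 (by linear_combination hs b2)⟩
    · simp only [Finset.mem_insert, Finset.mem_singleton, not_or]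
      exact ⟨ne' _ _ (b0 + b1 + b2) n012 (by ring),
        ne' _ _ (b1 + b2) n12 (by linear_combination hs b0),
        ne' _ _ (b0 + b2) n02 (by linear_combination hs b1),
        ne' _ _ b2 h2.1 (by linear_combination hs b0 + hs b1)⟩
    · simp only [Finset.mem_insert, Finset.mem_singleton, not_or]
      exact ⟨ne' _ _ b0 h0 (by linear_combination hs b1),
        ne' _ _ (b1 + b2) n12 (by ring),
        ne' _ _ (b0 + b1 + b2) n012 (by ring),
        ne' _ _ b2 h2.1 (by linear_combination hs b1),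
        ne' _ _ (b0 + b2) n02 (by linear_combination hs b1)⟩
    · simp only [Finset.mem_insert, Finset.mem_singleton, not_or]
      exact ⟨ne' _ _ (b0 + b1) n01 (by ring),
        ne' _ _ b1 h1.1 (by linear_combination hs b0),
        ne' _ _ (b0 + b2) n02 (by ring),
        ne' _ _ b2 h2.1 (by linear_combination hs b0),
        ne' _ _ (b0 + b1 + b2) n012 (by ring),
        ne' _ _ (b1 + b2) n12 (by linear_combination hs b0)⟩
    · simp only [Finset.mem_insert, Finset.mem_singleton, not_or]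
      exact ⟨Ne.symm h0, Ne.symm h1.1, Ne.symm n01, Ne.symm h2.1, Ne.symm n02, Ne.symm n12,
        Ne.symm n012⟩
  have hTS' : T = S := Finset.eq_of_subset_of_card_le hTS (by omega)
  intro a ha
  rw [← hS, ← hTS', hT] at ha
  simpa only [Finset.mem_insert, Finset.mem_singleton] using ha

/-- an additive function which agrees with another one on the generators -/
theorem ext_gens {K : Type} [Field K] [CharP K 2] (A : AddSubgroup K) (b0 b1 b2 : K)
    (hb0 : b0 ∈ A) (hb1 : b1 ∈ A) (hb2 : b2 ∈ A)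
    (hA : ∀ a ∈ A, a = 0 ∨ a = b0 ∨ a = b1 ∨ a = b0 + b1 ∨ a = b2 ∨ a = b0 + b2 ∨ a = b1 + b2 ∨
        a = b0 + b1 + b2) (F G : K → K)
    (hF : ∀ a ∈ A, ∀ b ∈ A, F (a + b) = F a + F b) (hG : ∀ a ∈ A, ∀ b ∈ A, G (a + b) = G a + G b)
    (h0 : F b0 = G b0) (h1 : F b1 = G b1) (h2 : F b2 = G b2) : ∀ a ∈ A, F a = G a := by
  have z : ∀ H : K → K, (∀ a ∈ A, ∀ b ∈ A, H (a + b) = H a + H b) → H 0 = 0 := by
    intro H hH
    have := hH 0 A.zero_mem 0 A.zero_mem
    rw [add_zero] at this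
    linear_combination -this
  have h01 : F (b0 + b1) = G (b0 + b1) := by rw [hF _ hb0 _ hb1, hG _ hb0 _ hb1, h0, h1]
  intro a ha
  rcases hA a ha with rfl | rfl | rfl | rfl | rfl | rfl | rfl | rfl
  · rw [z F hF, z G hG]
  · exact h0
  · exact h1
  · exact h01
  · exact h2
  · rw [hF _ hb0 _ hb2, hG _ hb0 _ hb2, h0, h2]
  · rw [hF _ hb1 _ hb2, hG _ hb1 _ hb2, h1, h2]
  · rw [hF _ (A.add_mem hb0 hb1) _ hb2, hG _ (A.add_mem hb0 hb1) _ hb2, h01, h2]

/-- interpolation and uniqueness -/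
theorem interp {K : Type} [Field K] [Fintype K] [CharP K 2] (A : AddSubgroup K)
    (hA : Nat.card A = 8) :
    (∀ U : K → K, (∀ a ∈ A, ∀ b ∈ A, U (a + b) = U a + U b) →
      ∃ u0 u1 u2 : K, ∀ a ∈ A, U a = u0 * a + u1 * a ^ 2 + u2 * a ^ 4) ∧
    (∀ c0 c1 c2 : K, (∀ a ∈ A, c0 * a + c1 * a ^ 2 + c2 * a ^ 4 = 0) →
      c0 = 0 ∧ c1 = 0 ∧ c2 = 0) := by
  obtain ⟨b0, b1, b2, hb0, hb1, hb2, n0, n1, n10, n2, n20, n21, n201, hall⟩ := gens A hA
  have h2 : (2 : K) = 0 := CharTwo.two_eq_zero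
  have hneg : ∀ x y : K, x + y = 0 → x = y := fun x y h => by
    linear_combination h - y * h2
  -- the Newton basis
  obtain ⟨δ, hδ⟩ : ∃ δ : K, δ = b1 * (b1 + b0) := ⟨_, rfl⟩
  obtain ⟨η, hη⟩ : ∃ η : K, η = b2 * (b2 + b0) := ⟨_, rfl⟩
  have hδ0 : δ ≠ 0 := by
    rw [hδ]
    exact mul_ne_zero n1 fun h => n10 (hneg _ _ h)
  have hη0 : η ≠ 0 := by
    rw [hη]
    exact mul_ne_zero n2 fun h => n20 (hneg _ _ h)
  have hηδ : η + δ ≠ 0 := by
    have h3 : η + δ = (b1 + b2) * (b1 + b2 + b0) := by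
      rw [hη, hδ]
      linear_combination (-b1 * b2) * h2
    rw [h3]
    refine mul_ne_zero (fun h => n21 (hneg _ _ h).symm) fun h => n201 ?_
    refine hneg _ _ ?_
    linear_combination h
  have hL2 : η ^ 2 + δ * η ≠ 0 := by
    have h3 : η ^ 2 + δ * η = η * (η + δ) := by ring
    rw [h3]
    exact mul_ne_zero hη0 hηδ
  constructor
  · intro U hU
    obtain ⟨α, hα⟩ : ∃ α : K, α = U b0 / b0 := ⟨_, rfl⟩
    obtain ⟨β, hβ⟩ : ∃ β : K, β = (U b1 + α * b1) / δ := ⟨_, rfl⟩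
    obtain ⟨γ, hγ⟩ : ∃ γ : K, γ = (U b2 + α * b2 + β * η) / (η ^ 2 + δ * η) := ⟨_, rfl⟩
    have e0 : α * b0 = U b0 := by rw [hα, div_mul_cancel₀ _ n0]
    have e1 : β * δ = U b1 + α * b1 := by rw [hβ, div_mul_cancel₀ _ hδ0]
    have e2 : γ * (η ^ 2 + δ * η) = U b2 + α * b2 + β * η := by rw [hγ, div_mul_cancel₀ _ hL2]
    refine ⟨α + β * b0 + γ * δ * b0, β + γ * (b0 ^ 2 + δ), γ, ?_⟩
    refine ext_gens A b0 b1 b2 hb0 hb1 hb2 hall U
      (fun a => (α + β * b0 + γ * δ * b0) * a + (β + γ * (b0 ^ 2 + δ)) * a ^ 2 + γ * a ^ 4) hU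
      (fun a _ b _ => ?_) ?_ ?_ ?_
    · linear_combination ((β + γ * (b0 ^ 2 + δ)) * a * b +
        γ * (2 * a ^ 3 * b + 3 * a ^ 2 * b ^ 2 + 2 * a * b ^ 3)) * h2
    · linear_combination (-1 : K) * e0 - (β * b0 ^ 2 + γ * δ * b0 ^ 2 + γ * b0 ^ 4) * h2
    · have e3 : β * b1 ^ 2 + β * b0 * b1 = U b1 + α * b1 := by
        rw [← e1, hδ]
        ring
      have e4 : δ * b0 * b1 + (b0 ^ 2 + δ) * b1 ^ 2 + b1 ^ 4 = 0 := by
        rw [hδ]
        linear_combination (b0 * b1 ^ 3 + b0 ^ 2 * b1 ^ 2 + b1 ^ 4) * h2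
      linear_combination (-1 : K) * e3 - γ * e4 - (α * b1) * h2 + (0 : K) * h2
    · have e3 : η ^ 2 + δ * η = δ * b0 * b2 + (b0 ^ 2 + δ) * b2 ^ 2 + b2 ^ 4 := by
        rw [hη]
        linear_combination (b2 ^ 3 * b0) * h2
      have e4 : β * η = β * b0 * b2 + β * b2 ^ 2 := by
        rw [hη]
        ring
      rw [e3] at e2
      rw [e4] at e2
      linear_combination (-1 : K) * e2 - (α * b2 + β * b0 * b2 + β * b2 ^ 2) * h2
  · intro c0 c1 c2 hc
    have f0 := hc b0 hb0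
    have f1 := hc b1 hb1
    have f2 := hc b2 hb2
    obtain ⟨β, hβ⟩ : ∃ β : K, β = c1 + c2 * (b0 ^ 2 + δ) := ⟨_, rfl⟩
    obtain ⟨α, hα⟩ : ∃ α : K, α = c0 + c2 * δ * b0 + β * b0 := ⟨_, rfl⟩
    have g0 : α = 0 := by
      have : α * b0 = 0 := by
        rw [hα, hβ]
        linear_combination f0 + (c1 * b0 ^ 2 - c1 * b0 ^ 2 + c2 * δ * b0 ^ 2) * h2
      exact (mul_eq_zero.1 this).resolve_right n0
    have g1 : β = 0 := by
      have h3 : c0 = α + c2 * δ * b0 + β * b0 := by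
        rw [hα]
        linear_combination (-(c2 * δ * b0) - β * b0) * h2
      have h4 : c1 = β + c2 * (b0 ^ 2 + δ) := by
        rw [hβ]
        linear_combination (-(c2 * (b0 ^ 2 + δ))) * h2
      have : β * δ = 0 := by
        rw [h3, h4, g0] at f1
        have e4 : δ * b0 * b1 + (b0 ^ 2 + δ) * b1 ^ 2 + b1 ^ 4 = 0 := by
          rw [hδ]
          linear_combination (b0 * b1 ^ 3 + b0 ^ 2 * b1 ^ 2 + b1 ^ 4) * h2
        have e5 : β * δ = β * b1 ^ 2 + β * b0 * b1 := by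
          rw [hδ]
          ring
        rw [e5]
        linear_combination f1 - c2 * e4
      exact (mul_eq_zero.1 this).resolve_right hδ0
    have g2 : c2 = 0 := by
      have h3 : c0 = c2 * δ * b0 := by
        have := hα
        rw [g0, g1] at this
        linear_combination (-1 : K) * this - (c2 * δ * b0 - c0 + c0 - 0) * h2 + (c0 - c0) * h2 +
          (0 : K) * this + (c2 * δ * b0 - c2 * δ * b0) * h2
      have h4 : c1 = c2 * (b0 ^ 2 + δ) := by
        have := hβ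
        rw [g1] at this
        linear_combination (-1 : K) * this - (c2 * (b0 ^ 2 + δ)) * h2
      have : c2 * (η ^ 2 + δ * η) = 0 := by
        rw [h3, h4] at f2
        have e3 : η ^ 2 + δ * η = δ * b0 * b2 + (b0 ^ 2 + δ) * b2 ^ 2 + b2 ^ 4 := by
          rw [hη]
          linear_combination (b2 ^ 3 * b0) * h2
        rw [e3]
        linear_combination f2
      exact (mul_eq_zero.1 this).resolve_right hL2
    refine ⟨?_, ?_, g2⟩
    · rw [g0, g1, g2] at hα
      linear_combination (-1 : K) * hα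
    · rw [g1, g2] at hβ
      linear_combination (-1 : K) * hβ

/-- a scalar `k ≠ 1` which preserves a group of order `8` satisfies `k ^ 3 ≠ 1` -/
theorem cube {K : Type} [Field K] [Fintype K] [CharP K 2] (A : AddSubgroup K)
    (hA : Nat.card A = 8) (k : K) (hk0 : k ≠ 0) (hk1 : k ≠ 1) (hk : ∀ a ∈ A, k * a ∈ A) :
    k ^ 3 ≠ 1 := by
  classical
  obtain ⟨S, hS⟩ : ∃ S : Finset K, ∀ a, a ∈ S ↔ a ∈ A :=
    ⟨Finset.univ.filter fun a => a ∈ A, fun a => by simp⟩
  have hc : S.card = 8 := by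
    rw [← hA]
    have h1 : (A : Set K) = (S : Set K) := by
      ext a
      simp [hS]
    have h2 : Nat.card (A : Set K) = S.card := by
      rw [h1]
      simp
    exact h2.symm
  obtain ⟨T, hT⟩ : ∃ T : Finset K, T = S.erase 0 := ⟨_, rfl⟩
  have hTc : T.card = 7 := by
    rw [hT, Finset.card_erase_of_mem ((hS 0).2 A.zero_mem), hc]
  have himg : T.image (fun a => k * a) = T := by
    refine Finset.eq_of_subset_of_card_le ?_ ?_
    · intro b hb
      obtain ⟨a, ha, rfl⟩ := Finset.mem_image.1 hb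
      rw [hT, Finset.mem_erase, hS] at ha ⊢
      exact ⟨mul_ne_zero hk0 ha.1, hk a ha.2⟩
    · rw [Finset.card_image_of_injective _ (mul_right_injective₀ hk0)]
  have hprod : ∏ a ∈ T, a = k ^ 7 * ∏ a ∈ T, a := by
    have h1 : ∏ a ∈ T.image (fun a => k * a), a = ∏ a ∈ T, k * a :=
      Finset.prod_image fun a _ b _ h => mul_right_injective₀ hk0 h
    rw [himg] at h1
    rw [Finset.prod_mul_distrib, Finset.prod_const, hTc] at h1
    exact h1
  have hne : ∏ a ∈ T, a ≠ 0 := by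
    rw [Finset.prod_ne_zero_iff]
    intro a ha
    rw [hT, Finset.mem_erase] at ha
    exact ha.1
  have h7 : k ^ 7 = 1 := by
    have h1 : (k ^ 7 - 1) * ∏ a ∈ T, a = 0 := by linear_combination -hprod
    have h2 := (mul_eq_zero.1 h1).resolve_right hne
    linear_combination h2
  intro h3
  apply hk1
  calc k = k ^ 7 * (k ^ 3) ^ 0 - k * ((k ^ 3) ^ 2 - 1) := by ring
    _ = 1 := by rw [h7, h3]; ring

theorem t_ALG : Pool.Agent.U830.MA.S_ALG := by
  intro K _ _ _ A U W k m00 m01 m02 m10 m11 m12 hA hU hW hk0 hk1 hk hc R1 R2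
  have h2 : (2 : K) = 0 := CharTwo.two_eq_zero
  have hsq : ∀ a b : K, a ^ 2 = b ^ 2 → a = b := by
    intro a b h
    have h3 : (a - b) ^ 2 = 0 := by linear_combination h + (b ^ 2 - a * b) * h2
    have h4 := pow_eq_zero_iff (two_ne_zero) |>.1 h3
    exact sub_eq_zero.1 h4
  have hroot : ∀ a : K, ∃ b : K, b ^ 2 = a := by
    intro a
    obtain ⟨b, hb⟩ := FiniteField.isSquare_of_char_two (F := K) (ringChar.eq K 2 ▸ rfl) a
    exact ⟨b, by rw [hb]; ring⟩
  obtain ⟨hint, huniq⟩ := interp A hA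
  obtain ⟨u0, u1, u2, hu⟩ := hint U hU
  obtain ⟨w0, w1, w2, hw⟩ := hint W hW
  obtain ⟨c, hcd⟩ : ∃ c : K, c = m00 * m11 + m01 * m10 := ⟨_, rfl⟩
  rw [← hcd] at hc
  rw [← hcd] at R1 R2
  by_cases hz : u2 = 0 ∧ w2 = 0
  · left
    refine ⟨u0, u1, w0, w1, fun a ha => ⟨?_, ?_⟩⟩
    · rw [hu a ha, hz.1]
      ring
    · rw [hw a ha, hz.2]
      ring
  · right
    have hk3 : k ^ 3 ≠ 1 := cube A hA k hk0 hk1 hk
    obtain ⟨p0, -, p2⟩ := huniq
      (k * (m00 ^ 2 * u0 + m01 ^ 2 * w0 + m00 * m01) - k * (c * u0))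
      (k ^ 2 * (m00 ^ 2 * u1 + m01 ^ 2 * w1 + m02 ^ 2) - c * k * u1)
      (k * (k ^ 3 * (m00 ^ 2 * u2 + m01 ^ 2 * w2)) - k * (c * u2)) (fun a ha => by
        have h3 := R1 a ha
        rw [hu a ha, hu (k * a) (hk a ha), hw (k * a) (hk a ha)] at h3
        linear_combination h3)
    obtain ⟨q0, -, q2⟩ := huniq
      (k * (m10 ^ 2 * u0 + m11 ^ 2 * w0 + m10 * m11) - k * (c * w0))
      (k ^ 2 * (m10 ^ 2 * u1 + m11 ^ 2 * w1 + m12 ^ 2) - c * k * w1)
      (k * (k ^ 3 * (m10 ^ 2 * u2 + m11 ^ 2 * w2)) - k * (c * w2)) (fun a ha => by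
        have h3 := R2 a ha
        rw [hw a ha, hu (k * a) (hk a ha), hw (k * a) (hk a ha)] at h3
        linear_combination h3)
    have canc : ∀ s t : K, k * s - k * t = 0 → s = t := by
      intro s t h
      have h3 : k * (s - t) = 0 := by linear_combination h
      exact sub_eq_zero.1 ((mul_eq_zero.1 h3).resolve_left hk0)
    have e1 := canc _ _ p0
    have e2 := canc _ _ p2
    have e3 := canc _ _ q0
    have e4 := canc _ _ q2
    -- the adjugate
    have cc : ∀ s t : K, c * s = c * t → s = t := fun s t h => mul_left_cancel₀ hc h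
    have hc2 : c ^ 2 = m00 ^ 2 * m11 ^ 2 + m01 ^ 2 * m10 ^ 2 := by
      rw [hcd]
      linear_combination (m00 * m11 * m01 * m10) * h2
    have a1 : m11 ^ 2 * u2 + m01 ^ 2 * w2 = c * k ^ 3 * u2 := by
      apply cc
      linear_combination (-1 : K) * (m11 ^ 2 * e2 + m01 ^ 2 * e4) + (k ^ 3 * u2) * hc2 * (-1 : K) +
        (k ^ 3 * (m01 ^ 2 * m11 ^ 2 * w2)) * h2
    have a2 : m10 ^ 2 * u2 + m00 ^ 2 * w2 = c * k ^ 3 * w2 := by
      apply cc
      linear_combination (-1 : K) * (m10 ^ 2 * e2 + m00 ^ 2 * e4) + (k ^ 3 * w2) * hc2 * (-1 : K) +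
        (k ^ 3 * (m00 ^ 2 * m10 ^ 2 * u2)) * h2
    obtain ⟨x, hx⟩ := hroot w2
    obtain ⟨y, hy⟩ := hroot u2
    obtain ⟨z, hzz⟩ := hroot (w2 * u1 + u2 * w1)
    have b1 : (m00 * x + m10 * y) ^ 2 = c * k ^ 3 * w2 := by
      rw [← a2, ← hx, ← hy]
      linear_combination (m00 * x * m10 * y) * h2
    have b2 : (m01 * x + m11 * y) ^ 2 = c * k ^ 3 * u2 := by
      rw [← a1, ← hx, ← hy]
      linear_combination (m01 * x * m11 * y) * h2
    have b3 : (m00 * x + m10 * y) * (m01 * x + m11 * y) = c * k ^ 3 * (x * y) := by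
      apply hsq
      rw [mul_pow, b1, b2, ← hx, ← hy]
      ring
    have b4 : m00 * m01 * w2 + m10 * m11 * u2 + c * (x * y) = c * k ^ 3 * (x * y) := by
      rw [← b3, hcd, ← hx, ← hy]
      ring
    have b5 : u0 * w2 + w0 * u2 + x * y = 0 := by
      have h3 : c * (k ^ 3 - 1) * (u0 * w2 + w0 * u2 + x * y) = 0 := by
        linear_combination w2 * e1 + u2 * e3 - u0 * a2 - w0 * a1 - b4 +
          (0 : K) * h2
      refine (mul_eq_zero.1 h3).resolve_left (mul_ne_zero hc ?_)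
      exact sub_ne_zero.2 hk3
    refine ⟨x, y, z, ?_, fun a ha => ?_⟩
    · by_contra hcon
      push Not at hcon
      apply hz
      rw [← hx, ← hy, hcon.1, hcon.2]
      constructor <;> ring
    · rw [hu a ha, hw a ha, hzz, hx, hy]
      linear_combination a * b5 + (a ^ 2 * (u1 * w2 + w1 * u2) + a ^ 4 * u2 * w2) * h2

end Pool.Agent.U208.MA.ALG
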